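import Pool.Agent.H25.CT.Gr

/-!
# Three edge-disjoint spanning trees: cyclic orderings in which two thirds of the windows are spanning trees

Let `T₁, T₂, T₃` be pairwise edge-disjoint spanning trees of a finite graph `G` (loops and parallel edges are
allowed) with `k + 1` vertices, `k ≥ 1`. For every ordering of `T₁` and every `p ≤ k` there is a cyclic ordering of
`T₁ ∪ T₂ ∪ T₃` which consists of `T₁` in the given order, followed by `T₂`, followed by `T₃`, such that the `k`
consecutive edges starting at each of the positions `0, 1, …, 2 k` and at the position `2 k + p` form a spanning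
tree.

So there is a cyclic ordering with at least `2 k + 2` spanning trees among the `3 k` windows (`k ≥ 2`) and in which
each of the `3 k` windows contains a forest with at least `(3 k - 1) / 4` edges.
-/

set_option autoImplicit false

namespace Pool.Agent.Results.MP_974a61_co.CyclicExchange

open Finset Pool.Agent.H25.CT

/-- the window of the `k` consecutive edges `f j, f (j + 1), …, f (j + k - 1)` -/
def win {E : Type} [DecidableEq E] (f : ℕ → E) (k j : ℕ) : Finset E :=
  (Finset.range k).image (fun i => f (j + i))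

/-- `f` is a cyclic ordering of the finite set `U`: it has period `|U|` and its first `|U|` values are the
elements of `U` (each one once) -/
def IsCyclicOrdering {E : Type} [DecidableEq E] (U : Finset E) (f : ℕ → E) : Prop :=
  (∀ j, f (j + U.card) = f j) ∧ (Finset.range U.card).image f = U

section abs
variable {E : Type} [DecidableEq E]

lemma win_two (f g h : ℕ → E) (k j off : ℕ) (hj : j ≤ k) (hg : ∀ i < k, f (off + i) = g i)
    (hh : ∀ i < k, f (off + k + i) = h i) :
    win f k (off + j) = (Finset.Ico j k).image g ∪ (Finset.range j).image h := by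
  ext w
  simp only [win, mem_union, mem_image, mem_range, mem_Ico]
  constructor
  · rintro ⟨i, hi, rfl⟩
    by_cases hjk : j + i < k
    · left
      exact ⟨j + i, by omega, by rw [← hg (j + i) hjk, add_assoc]⟩
    · right
      refine ⟨j + i - k, by omega, ?_⟩
      rw [← hh (j + i - k) (by omega)]
      congr 1; omega
  · rintro (⟨i, hi, rfl⟩ | ⟨i, hi, rfl⟩)
    · refine ⟨i - j, by omega, ?_⟩
      rw [← hg i (by omega)]
      congr 1; omega
    · refine ⟨k + i - j, by omega, ?_⟩
      rw [← hh i (by omega)]
      congr 1; omega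

theorem core_abs {r : Finset E → ℕ} (hr : RankFn r) (h0 : r ∅ = 0) {k : ℕ} (hk : ∀ X, r X ≤ k)
    {A B C : Finset E} (hA : Bs r k A) (hB : Bs r k B) (hC : Bs r k C) (hAB : Disjoint A B)
    (hAC : Disjoint A C) (hBC : Disjoint B C) (a : ℕ → E) (ha : (Finset.range k).image a = A)
    (p : ℕ) (hp : p ≤ k) :
    ∃ f : ℕ → E, IsCyclicOrdering (A ∪ B ∪ C) f ∧ (∀ i < k, f i = a i) ∧ win f k k = B ∧
      win f k (2 * k) = C ∧ (∀ j ≤ 2 * k, Bs r k (win f k j)) ∧ Bs r k (win f k (2 * k + p)) := by
  classical
  have hinj : Set.InjOn a (Finset.range k : Set ℕ) := by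
    apply Finset.injOn_of_card_image_eq
    rw [ha, hA.1, Finset.card_range]
  set A' := (Finset.range p).image a with hA'
  have hA's : A' ⊆ A := by
    rw [← ha]
    exact Finset.image_subset_image (Finset.range_subset_range.2 hp)
  have hA'c : A'.card = p := by
    rw [hA', Finset.card_image_of_injOn, Finset.card_range]
    exact hinj.mono (by
      intro x hx
      simp only [Finset.coe_range, Set.mem_Iio] at hx ⊢
      omega)
  have hAd : A \ A' = (Finset.Ico p k).image a := by
    rw [← ha, hA']
    ext w
    simp only [mem_sdiff, mem_image, mem_range, mem_Ico]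
    constructor
    · rintro ⟨⟨i, hi, rfl⟩, h2⟩
      refine ⟨i, ⟨?_, hi⟩, rfl⟩
      by_contra hcon
      exact h2 ⟨i, by omega, rfl⟩
    · rintro ⟨i, hi, rfl⟩
      refine ⟨⟨i, hi.2, rfl⟩, ?_⟩
      rintro ⟨j, hj, hji⟩
      have := hinj (by simp; omega) (by simp; omega) hji
      omega
  obtain ⟨B', hB', C', hC', cB, cC, b1, b2, b3⟩ := cyc_exchange hr h0 hk hA hB hC hBC hA's
  obtain ⟨b, hb1, hb2, hb3⟩ := comb hr h0 hk a p hp B B' hB' (by rw [ha]; exact hA) hB (by omega)
    (by rw [← hAd]; exact b1)
  have hbB : (Finset.range k).image b = B := by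
    have : Finset.range k = Finset.range p ∪ Finset.Ico p k := by
      ext j; simp only [mem_union, mem_range, mem_Ico]; omega
    rw [this, Finset.image_union, hb1, hb2, Finset.union_sdiff_of_subset hB']
  obtain ⟨c, hc1, hc2, hc3⟩ := comb hr h0 hk b p hp C C' hC' (by rw [hbB]; exact hB) hC (by omega)
    (by rw [hb2]; exact b2)
  have hcC : (Finset.range k).image c = C := by
    have : Finset.range k = Finset.range p ∪ Finset.Ico p k := by
      ext j; simp only [mem_union, mem_range, mem_Ico]; omega
    rw [this, Finset.image_union, hc1, hc2, Finset.union_sdiff_of_subset hC']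
  set f : ℕ → E := fun j => if j % (3 * k) < k then a (j % (3 * k)) else
    if j % (3 * k) < 2 * k then b (j % (3 * k) - k) else c (j % (3 * k) - 2 * k) with hf
  have f1 : ∀ i < k, f i = a i := by
    intro i hi
    simp only [hf]
    rw [Nat.mod_eq_of_lt (by omega), if_pos hi]
  have f2 : ∀ i < k, f (k + i) = b i := by
    intro i hi
    simp only [hf]
    rw [Nat.mod_eq_of_lt (by omega), if_neg (by omega), if_pos (by omega)]
    congr 1; omega
  have f3 : ∀ i < k, f (2 * k + i) = c i := by
    intro i hi
    simp only [hf]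
    rw [Nat.mod_eq_of_lt (by omega), if_neg (by omega), if_neg (by omega)]
    congr 1; omega
  have f4 : ∀ i < k, f (3 * k + i) = a i := by
    intro i hi
    simp only [hf]
    rw [Nat.add_mod_left, Nat.mod_eq_of_lt (by omega), if_pos hi]
  have hcard : (A ∪ B ∪ C).card = 3 * k := by
    rw [Finset.card_union_of_disjoint (Finset.disjoint_union_left.2 ⟨hAC, hBC⟩),
      Finset.card_union_of_disjoint hAB, hA.1, hB.1, hC.1]
    omega
  have wB : win f k k = B := by
    rw [← hbB]
    ext w
    simp only [win, mem_image, mem_range]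
    constructor
    · rintro ⟨i, hi, rfl⟩; exact ⟨i, hi, (f2 i hi).symm⟩
    · rintro ⟨i, hi, rfl⟩; exact ⟨i, hi, f2 i hi⟩
  have wC : win f k (2 * k) = C := by
    rw [← hcC]
    ext w
    simp only [win, mem_image, mem_range]
    constructor
    · rintro ⟨i, hi, rfl⟩; exact ⟨i, hi, (f3 i hi).symm⟩
    · rintro ⟨i, hi, rfl⟩; exact ⟨i, hi, f3 i hi⟩
  refine ⟨f, ⟨?_, ?_⟩, f1, wB, wC, ?_, ?_⟩
  · intro j
    rw [hcard]
    simp only [hf, Nat.add_mod_right]
  · rw [hcard]
    ext w
    simp only [mem_union, mem_image, mem_range]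
    constructor
    · rintro ⟨i, hi, rfl⟩
      by_cases h1 : i < k
      · left; left
        rw [f1 i h1, ← ha]
        exact Finset.mem_image_of_mem a (Finset.mem_range.2 h1)
      · by_cases h2 : i < 2 * k
        · left; right
          have := f2 (i - k) (by omega)
          rw [show k + (i - k) = i by omega] at this
          rw [this, ← hbB]
          exact Finset.mem_image_of_mem b (Finset.mem_range.2 (by omega))
        · right
          have := f3 (i - 2 * k) (by omega)
          rw [show 2 * k + (i - 2 * k) = i by omega] at this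
          rw [this, ← hcC]
          exact Finset.mem_image_of_mem c (Finset.mem_range.2 (by omega))
    · rintro ((h | h) | h)
      · rw [← ha, mem_image] at h
        obtain ⟨i, hi, rfl⟩ := h
        rw [mem_range] at hi
        exact ⟨i, by omega, f1 i hi⟩
      · rw [← hbB, mem_image] at h
        obtain ⟨i, hi, rfl⟩ := h
        rw [mem_range] at hi
        exact ⟨k + i, by omega, f2 i hi⟩
      · rw [← hcC, mem_image] at h
        obtain ⟨i, hi, rfl⟩ := h
        rw [mem_range] at hi
        exact ⟨2 * k + i, by omega, f3 i hi⟩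
  · intro j hj
    by_cases hjk : j ≤ k
    · have := win_two f a b k j 0 hjk (by intro i hi; rw [zero_add]; exact f1 i hi)
        (by intro i hi; rw [zero_add]; exact f2 i hi)
      rw [zero_add] at this
      rw [this]
      exact hb3 j hjk
    · have := win_two f b c k (j - k) k (by omega) f2 (by
        intro i hi
        rw [show k + k + i = 2 * k + i by omega]
        exact f3 i hi)
      rw [show k + (j - k) = j by omega] at this
      rw [this]
      exact hc3 (j - k) (by omega)
  · have := win_two f c a k p (2 * k) hp f3 (by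
      intro i hi
      rw [show 2 * k + k + i = 3 * k + i by omega]
      exact f4 i hi)
    rw [this, hc2]
    exact b3

end abs

/-- Three pairwise edge-disjoint spanning trees. -/
theorem result (V E : Type) [Fintype V] [DecidableEq E] (s t : E → V) (k : ℕ)
    (hk0 : 1 ≤ k) (hV : Fintype.card V = k + 1) (T₁ T₂ T₃ : Finset E) (h₁ : IsSpanningTree s t T₁)
    (h₂ : IsSpanningTree s t T₂) (h₃ : IsSpanningTree s t T₃) (h₁₂ : Disjoint T₁ T₂)
    (h₁₃ : Disjoint T₁ T₃) (h₂₃ : Disjoint T₂ T₃) :
    (∀ a : ℕ → E, (Finset.range k).image a = T₁ → ∀ p ≤ k,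
      ∃ f : ℕ → E, IsCyclicOrdering (T₁ ∪ T₂ ∪ T₃) f ∧ (∀ i < k, f i = a i) ∧ win f k k = T₂ ∧
        win f k (2 * k) = T₃ ∧ (∀ j ≤ 2 * k, IsSpanningTree s t (win f k j)) ∧
        IsSpanningTree s t (win f k (2 * k + p))) ∧
    ∃ f : ℕ → E, IsCyclicOrdering (T₁ ∪ T₂ ∪ T₃) f ∧
      (2 ≤ k → ∃ J : Finset ℕ, J ⊆ Finset.range (3 * k) ∧ 2 * k + 2 ≤ J.card ∧
        ∀ j ∈ J, IsSpanningTree s t (win f k j)) ∧
      ∀ j < 3 * k, ∃ F ⊆ win f k j, ∃ T : Finset E, IsSpanningTree s t T ∧ F ⊆ T ∧
        3 * k ≤ 4 * F.card + 1 := by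
  classical
  have : Nonempty V := by
    rw [← Fintype.card_pos_iff]; omega
  have hk1 : Fintype.card V - 1 = k := by omega
  have hr := rk_rankFn s t
  have h0 := rk_empty s t
  have hk : ∀ X, rk s t X ≤ k := by intro X; rw [← hk1]; exact rk_le s t X
  have hb : ∀ X, IsSpanningTree s t X ↔ Bs (rk s t) k X := by
    intro X
    rw [← hk1]
    exact ⟨bs_of_tree s t X, tree_of_bs s t X⟩
  have first : ∀ a : ℕ → E, (Finset.range k).image a = T₁ → ∀ p ≤ k,
      ∃ f : ℕ → E, IsCyclicOrdering (T₁ ∪ T₂ ∪ T₃) f ∧ (∀ i < k, f i = a i) ∧ win f k k = T₂ ∧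
        win f k (2 * k) = T₃ ∧ (∀ j ≤ 2 * k, IsSpanningTree s t (win f k j)) ∧
        IsSpanningTree s t (win f k (2 * k + p)) := by
    intro a ha p hp
    simp only [hb]
    exact core_abs hr h0 hk ((hb _).1 h₁) ((hb _).1 h₂) ((hb _).1 h₃) h₁₂ h₁₃ h₂₃ a ha p hp
  refine ⟨first, ?_⟩
  have hc1 : T₁.card = k := ((hb _).1 h₁).1
  have hc2 : T₂.card = k := ((hb _).1 h₂).1
  have hc3 : T₃.card = k := ((hb _).1 h₃).1
  have hcard : (T₁ ∪ T₂ ∪ T₃).card = 3 * k := by
    rw [Finset.card_union_of_disjoint (Finset.disjoint_union_left.2 ⟨h₁₃, h₂₃⟩),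
      Finset.card_union_of_disjoint h₁₂, hc1, hc2, hc3]
    omega
  obtain ⟨a, ha⟩ : ∃ a : ℕ → E, (Finset.range k).image a = T₁ := by
    let e := T₁.equivFinOfCardEq hc1
    refine ⟨fun i => if h : i < k then (e.symm ⟨i, h⟩ : E) else (e.symm ⟨0, by omega⟩ : E), ?_⟩
    ext w
    simp only [mem_image, mem_range]
    constructor
    · rintro ⟨i, hi, rfl⟩
      rw [dif_pos hi]
      exact (e.symm ⟨i, hi⟩).2
    · intro hw
      refine ⟨e ⟨w, hw⟩, (e ⟨w, hw⟩).2, ?_⟩
      rw [dif_pos (e ⟨w, hw⟩).2]
      simp
  obtain ⟨f, hcyc, _, _, _, hgood, hgp⟩ := first a ha (k / 2) (by omega)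
  refine ⟨f, hcyc, ?_, ?_⟩
  · intro h2k
    refine ⟨insert (2 * k + k / 2) (Finset.range (2 * k + 1)), ?_, ?_, ?_⟩
    · intro j hj
      rw [mem_insert, mem_range] at hj
      rw [mem_range]
      omega
    · rw [Finset.card_insert_of_notMem (by rw [mem_range]; omega), Finset.card_range]
    · intro j hj
      rw [mem_insert, mem_range] at hj
      rcases hj with rfl | hj
      · exact hgp
      · exact hgood j (by omega)
  · have hper : win f k (3 * k) = win f k 0 := by
      unfold win
      apply Finset.image_congr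
      intro i _
      have := hcyc.1 i
      rw [hcard] at this
      show f (3 * k + i) = f (0 + i)
      rw [zero_add, ← this, add_comm]
    have hg3 : IsSpanningTree s t (win f k (3 * k)) := by
      rw [hper]; exact hgood 0 (by omega)
    have near : ∀ j j' d : ℕ, IsSpanningTree s t (win f k j') → (j + d = j' ∨ j' + d = j) → d ≤ k →
        ∃ F ⊆ win f k j, ∃ T : Finset E, IsSpanningTree s t T ∧ F ⊆ T ∧ F.card + d = k := by
      intro j j' d hT hd hdk
      have hcj : (win f k j').card = k := ((hb _).1 hT).1
      have hinj : Set.InjOn (fun i => f (j' + i)) (Finset.range k : Set ℕ) := by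
        apply Finset.injOn_of_card_image_eq
        rw [Finset.card_range]; exact hcj
      rcases hd with hd | hd
      · refine ⟨(Finset.range (k - d)).image (fun i => f (j' + i)), ?_, win f k j', hT, ?_, ?_⟩
        · intro w hw
          obtain ⟨i, hi, rfl⟩ := Finset.mem_image.1 hw
          rw [mem_range] at hi
          refine Finset.mem_image.2 ⟨d + i, Finset.mem_range.2 (by omega), ?_⟩
          show f (j + (d + i)) = f (j' + i)
          congr 1; omega
        · exact Finset.image_subset_image (Finset.range_subset_range.2 (by omega))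
        · rw [Finset.card_image_of_injOn, Finset.card_range]
          · omega
          · exact hinj.mono (by
              intro x hx
              simp only [Finset.coe_range, Set.mem_Iio] at hx ⊢
              omega)
      · refine ⟨(Finset.Ico d k).image (fun i => f (j' + i)), ?_, win f k j', hT, ?_, ?_⟩
        · intro w hw
          obtain ⟨i, hi, rfl⟩ := Finset.mem_image.1 hw
          rw [mem_Ico] at hi
          refine Finset.mem_image.2 ⟨i - d, Finset.mem_range.2 (by omega), ?_⟩
          show f (j + (i - d)) = f (j' + i)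
          congr 1; omega
        · apply Finset.image_subset_image
          intro x hx
          rw [mem_Ico] at hx
          exact mem_range.2 hx.2
        · rw [Finset.card_image_of_injOn, Nat.card_Ico]
          · omega
          · exact hinj.mono (by
              intro x hx
              simp only [Finset.coe_range, Set.mem_Iio, Finset.coe_Ico, Set.mem_Ico] at hx ⊢
              omega)
    intro j hj
    have fin : ∀ j' d : ℕ, IsSpanningTree s t (win f k j') → (j + d = j' ∨ j' + d = j) → 4 * d ≤ k + 1 →
        ∃ F ⊆ win f k j, ∃ T : Finset E, IsSpanningTree s t T ∧ F ⊆ T ∧ 3 * k ≤ 4 * F.card + 1 := by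
      intro j' d hT hd h4
      obtain ⟨F, h1, T, h2, h3, h4'⟩ := near j j' d hT hd (by omega)
      exact ⟨F, h1, T, h2, h3, by omega⟩
    by_cases c1 : j ≤ 2 * k
    · exact fin j 0 (hgood j c1) (Or.inl rfl) (by omega)
    · by_cases c2 : 4 * (j - 2 * k) ≤ k + 1
      · exact fin (2 * k) (j - 2 * k) (hgood _ le_rfl) (Or.inr (by omega)) c2
      · by_cases c3 : j ≤ 2 * k + k / 2
        · exact fin (2 * k + k / 2) (2 * k + k / 2 - j) hgp (Or.inl (by omega)) (by omega)
        · by_cases c4 : 4 * (j - (2 * k + k / 2)) ≤ k + 1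
          · exact fin (2 * k + k / 2) (j - (2 * k + k / 2)) hgp (Or.inr (by omega)) c4
          · exact fin (3 * k) (3 * k - j) hg3 (Or.inl (by omega)) (by omega)

end Pool.Agent.Results.MP_974a61_co.CyclicExchange
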