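import Pool.Agent.H25.CT.Cut

/-!
# Cyclic orderings of three edge-disjoint spanning trees: cuts with at most four edges

`Q1For k` is the statement of Q1 for the graphs (loops and parallel edges allowed) with `k + 1` vertices.
We prove that `Q1For k` gives the conclusion of Q1 for all graphs with `k + 2` vertices and three pairwise
edge-disjoint spanning trees whose union has an edge cut with at most four edges; so a counterexample to Q1 with
the fewest vertices is `5`-edge-connected. In particular Q1 holds for all graphs with at most five vertices.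
-/

set_option autoImplicit false
set_option linter.unusedSectionVars false

namespace Pool.Agent.Results.MP_974a61_co.SmallCuts

open Finset Pool.Agent.H25.CT Pool.Agent.Results.MP_974a61_co.CyclicExchange

/-- the set `U` has a cyclic ordering in which each set of `k` consecutive edges forms a spanning tree -/
def HasGoodOrdering {V E : Type} [Fintype V] [DecidableEq E] (s t : E → V) (k : ℕ) (U : Finset E) : Prop :=
  ∃ f : ℕ → E, IsCyclicOrdering U f ∧ ∀ j, IsSpanningTree s t (win f k j)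

/-- the statement of Q1 for the graphs with `k + 1` vertices; the edge `e` has the ends `s e` and `t e` -/
def Q1For (k : ℕ) : Prop :=
  ∀ (V E : Type) [Fintype V] [DecidableEq E] (s t : E → V), Fintype.card V = k + 1 →
    ∀ T₁ T₂ T₃ : Finset E, IsSpanningTree s t T₁ → IsSpanningTree s t T₂ → IsSpanningTree s t T₃ →
      Disjoint T₁ T₂ → Disjoint T₁ T₃ → Disjoint T₂ T₃ → HasGoodOrdering s t k (T₁ ∪ T₂ ∪ T₃)

open Classical in
/-- the edges of `U` with exactly one end in `S` -/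
noncomputable def cut {V E : Type} (s t : E → V) (S : Finset V) (U : Finset E) : Finset E :=
  U.filter (fun e => Crosses s t S e)

lemma mem_cut {V E : Type} {s t : E → V} {S : Finset V} {U : Finset E} {e : E} :
    e ∈ cut s t S U ↔ e ∈ U ∧ Crosses s t S e := by
  unfold cut; simp

theorem step1 {k : ℕ} (hk : 1 ≤ k) (hQ : Q1For k) (V E : Type) [Fintype V] [DecidableEq V] [DecidableEq E]
    (s t : E → V) (hV : Fintype.card V = k + 2) (T₁ T₂ T₃ : Finset E) (ht₁ : IsSpanningTree s t T₁)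
    (ht₂ : IsSpanningTree s t T₂) (ht₃ : IsSpanningTree s t T₃) (d12 : Disjoint T₁ T₂)
    (d13 : Disjoint T₁ T₃) (d23 : Disjoint T₂ T₃) (S : Finset V) (u v : V) (hu : u ∈ S) (hv : v ∉ S)
    (c1 : (cut s t S T₁).card = 1) (c2 : (cut s t S T₂).card = 1) (c3 : (cut s t S T₃).card ≤ 2) :
    HasGoodOrdering s t (k + 1) (T₁ ∪ T₂ ∪ T₃) := by
  classical
  have hne : Nonempty V := ⟨u⟩
  have hk1 : Fintype.card V - 1 = k + 1 := by omega
  have hb : ∀ X, IsSpanningTree s t X ↔ Bs (rk s t) (k + 1) X := by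
    intro X
    rw [← hk1]
    exact ⟨bs_of_tree s t X, tree_of_bs s t X⟩
  obtain ⟨h₁, e₁⟩ := Finset.card_eq_one.1 c1
  obtain ⟨h₂, e₂⟩ := Finset.card_eq_one.1 c2
  have m₁ : h₁ ∈ T₁ ∧ Crosses s t S h₁ := mem_cut.1 (by rw [e₁]; simp)
  have m₂ : h₂ ∈ T₂ ∧ Crosses s t S h₂ := mem_cut.1 (by rw [e₂]; simp)
  have n₁ : ∀ x ∈ T₁, Crosses s t S x → x = h₁ := by
    intro x hx hc
    have : x ∈ cut s t S T₁ := mem_cut.2 ⟨hx, hc⟩
    rw [e₁] at this
    simpa using this
  have n₂ : ∀ x ∈ T₂, Crosses s t S x → x = h₂ := by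
    intro x hx hc
    have : x ∈ cut s t S T₂ := mem_cut.2 ⟨hx, hc⟩
    rw [e₂] at this
    simpa using this
  have D12 : ∀ x, x ∈ T₁ → x ∈ T₂ → False := fun x h h' => Finset.disjoint_left.1 d12 h h'
  have D13 : ∀ x, x ∈ T₁ → x ∈ T₃ → False := fun x h h' => Finset.disjoint_left.1 d13 h h'
  have D23 : ∀ x, x ∈ T₂ → x ∈ T₃ → False := fun x h h' => Finset.disjoint_left.1 d23 h h'
  have hb1 := (hb _).1 ht₁
  have hb2 := (hb _).1 ht₂
  have hb3 := (hb _).1 ht₃
  have hUc : (T₁ ∪ T₂ ∪ T₃).card = 3 * k + 3 := by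
    rw [Finset.card_union_of_disjoint (Finset.disjoint_union_left.2 ⟨d13, d23⟩),
      Finset.card_union_of_disjoint d12, hb1.1, hb2.1, hb3.1]
    omega
  have main : ∀ g ∈ T₃, Crosses s t S g → ∃ f : ℕ → E, IsCyclicOrdering ((T₁ ∪ T₂ ∪ T₃) \ {g, h₁, h₂}) f ∧
      ∀ j, Bs (rk s t) (k + 1) (insert g (win f k j)) := by
    intro g hg hcg
    have hst : s g ≠ t g := by
      intro h
      unfold Crosses at hcg
      rw [h] at hcg
      tauto
    have hg1 : g ∉ T₁ := fun h => D13 g h hg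
    have hg2 : g ∉ T₂ := fun h => D23 g h hg
    have tr : ∀ (T : Finset E) (h : E), IsSpanningTree s t T → h ∈ T → Crosses s t S h → g ∉ T →
        (∀ x ∈ T, Crosses s t S x → x = h) → IsSpanningTree s t (insert g (T.erase h)) := by
      intro T h hT hhT hch hgT hn
      rw [hb] at hT ⊢
      have hnc : ∀ x ∈ T.erase h, ¬ Crosses s t S x := by
        intro x hx hc
        rw [Finset.mem_erase] at hx
        exact hx.1 (hn x hx.2 hc)
      have r1 := rk_cross s t S (T.erase h) hnc h hch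
      have r2 := rk_cross s t S (T.erase h) hnc g hcg
      rw [Finset.insert_erase hhT] at r1
      refine ⟨?_, ?_⟩
      · rw [Finset.card_insert_of_notMem (fun h' => hgT (Finset.mem_of_mem_erase h')),
          Finset.card_erase_of_mem hhT, hT.1]
        omega
      · rw [r2, ← r1]; exact hT.2
    have t1 := (contr s t g hst (T₁.erase h₁) (fun h => hg1 (Finset.mem_of_mem_erase h))).2
      (tr T₁ h₁ ht₁ m₁.1 m₁.2 hg1 n₁)
    have t2 := (contr s t g hst (T₂.erase h₂) (fun h => hg2 (Finset.mem_of_mem_erase h))).2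
      (tr T₂ h₂ ht₂ m₂.1 m₂.2 hg2 n₂)
    have t3 := (contr s t g hst (T₃.erase g) (Finset.notMem_erase g T₃)).2
      (by rw [Finset.insert_erase hg]; exact ht₃)
    have hcv := card_contr s t g
    obtain ⟨f, hf, hfw⟩ := hQ {w : V // w ≠ s g} E _ _ (by omega) _ _ _ t1 t2 t3
      (d12.mono (Finset.erase_subset _ _) (Finset.erase_subset _ _))
      (d13.mono (Finset.erase_subset _ _) (Finset.erase_subset _ _))
      (d23.mono (Finset.erase_subset _ _) (Finset.erase_subset _ _))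
    have hUe : T₁.erase h₁ ∪ T₂.erase h₂ ∪ T₃.erase g = (T₁ ∪ T₂ ∪ T₃) \ {g, h₁, h₂} := by
      ext x
      simp only [mem_union, mem_erase, mem_sdiff, mem_insert, mem_singleton]
      constructor
      · rintro ((⟨hx1, hx2⟩ | ⟨hx1, hx2⟩) | ⟨hx1, hx2⟩)
        · refine ⟨by tauto, ?_⟩
          rintro (rfl | rfl | rfl)
          · exact hg1 hx2
          · exact hx1 rfl
          · exact D12 _ hx2 m₂.1
        · refine ⟨by tauto, ?_⟩
          rintro (rfl | rfl | rfl)
          · exact hg2 hx2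
          · exact D12 _ m₁.1 hx2
          · exact hx1 rfl
        · refine ⟨by tauto, ?_⟩
          rintro (rfl | rfl | rfl)
          · exact hx1 rfl
          · exact D13 _ m₁.1 hx2
          · exact D23 _ m₂.1 hx2
      · rintro ⟨hx, hn⟩
        tauto
    rw [hUe] at hf
    refine ⟨f, hf, ?_⟩
    intro j
    rw [← hb]
    have hDs : ({g, h₁, h₂} : Finset E) ⊆ T₁ ∪ T₂ ∪ T₃ := by
      intro x hx
      simp only [mem_insert, mem_singleton] at hx
      simp only [mem_union]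
      rcases hx with rfl | rfl | rfl
      · right; exact hg
      · left; left; exact m₁.1
      · left; right; exact m₂.1
    have hDc : ({g, h₁, h₂} : Finset E).card ≤ 3 := Finset.card_le_three
    have hcc := Finset.card_sdiff_add_card_eq_card hDs
    have hgw : g ∉ win f k j := by
      intro h
      obtain ⟨a, _, _, ha⟩ := mem_win h
      have := cyc_mem hf (by omega) a
      rw [ha] at this
      simp at this
    exact (contr s t g hst (win f k j) hgw).1 (hfw j)
  have fin : (∃ F : ℕ → E, IsCyclicOrdering (T₁ ∪ T₂ ∪ T₃) F ∧ ∀ j, Bs (rk s t) (k + 1) (win F (k + 1) j)) →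
      HasGoodOrdering s t (k + 1) (T₁ ∪ T₂ ∪ T₃) := by
    rintro ⟨F, h1, h2⟩
    exact ⟨F, h1, fun j => (hb _).2 (h2 j)⟩
  apply fin
  obtain ⟨g0, hg0, hc0⟩ := exists_cross ht₃ S u v hu hv
  have hg0m : g0 ∈ cut s t S T₃ := mem_cut.2 ⟨hg0, hc0⟩
  have hpos : 0 < (cut s t S T₃).card := Finset.card_pos.2 ⟨g0, hg0m⟩
  have U1 : ∀ x ∈ T₁, x ∈ T₁ ∪ T₂ ∪ T₃ := fun x h => by simp [h]
  have U2 : ∀ x ∈ T₂, x ∈ T₁ ∪ T₂ ∪ T₃ := fun x h => by simp [h]
  have U3 : ∀ x ∈ T₃, x ∈ T₁ ∪ T₂ ∪ T₃ := fun x h => by simp [h]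
  have hh12 : h₁ ≠ h₂ := fun h => D12 h₁ m₁.1 (h ▸ m₂.1)
  by_cases c : (cut s t S T₃).card = 1
  · obtain ⟨g, e₃⟩ := Finset.card_eq_one.1 c
    have m₃ : g ∈ T₃ ∧ Crosses s t S g := mem_cut.1 (by rw [e₃]; simp)
    have n₃ : ∀ x ∈ T₃, Crosses s t S x → x = g := by
      intro x hx hc
      have : x ∈ cut s t S T₃ := mem_cut.2 ⟨hx, hc⟩
      rw [e₃] at this
      simpa using this
    obtain ⟨f, hf, hw⟩ := main g m₃.1 m₃.2
    refine red3 hk (T₁ ∪ T₂ ∪ T₃) g h₁ h₂ hUc (U3 _ m₃.1) (U1 _ m₁.1) (U2 _ m₂.1)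
      (fun h => D13 _ m₁.1 (h ▸ m₃.1)) (fun h => D23 _ m₂.1 (h ▸ m₃.1)) hh12 ?_ f hf hw
    intro X hX d hd
    apply rk_cross s t S X
    · intro x hx hcx
      have := hX hx
      simp only [mem_sdiff, mem_union, mem_insert, mem_singleton] at this
      rcases this with ⟨(h | h) | h, hn⟩
      · exact hn (Or.inr (Or.inl (n₁ x h hcx)))
      · exact hn (Or.inr (Or.inr (n₂ x h hcx)))
      · exact hn (Or.inl (n₃ x h hcx))
    · simp only [mem_insert, mem_singleton] at hd
      rcases hd with rfl | rfl | rfl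
      · exact m₃.2
      · exact m₁.2
      · exact m₂.2
  · have c' : (cut s t S T₃).card = 2 := by omega
    obtain ⟨e, g, heg, e₃⟩ := Finset.card_eq_two.1 c'
    have m₃ : g ∈ T₃ ∧ Crosses s t S g := mem_cut.1 (by rw [e₃]; simp)
    have m₄ : e ∈ T₃ ∧ Crosses s t S e := mem_cut.1 (by rw [e₃]; simp)
    have n₃ : ∀ x ∈ T₃, Crosses s t S x → x = e ∨ x = g := by
      intro x hx hc
      have : x ∈ cut s t S T₃ := mem_cut.2 ⟨hx, hc⟩
      rw [e₃] at this
      simpa using this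
    obtain ⟨f, hf, hw⟩ := main g m₃.1 m₃.2
    refine red4 (rk_rankFn s t) (rk_empty s t) hk (T₁ ∪ T₂ ∪ T₃) e g h₁ h₂ hUc (U3 _ m₄.1) (U3 _ m₃.1)
      (U1 _ m₁.1) (U2 _ m₂.1) (fun h => D13 _ m₁.1 (h ▸ m₃.1)) (fun h => D23 _ m₂.1 (h ▸ m₃.1)) hh12 heg
      (fun h => D13 _ m₁.1 (h ▸ m₄.1)) (fun h => D23 _ m₂.1 (h ▸ m₄.1)) ?_ f hf hw
    intro X hX d hd
    apply rk_cross s t S X
    · intro x hx hcx
      have := hX hx
      simp only [mem_sdiff, mem_union, mem_insert, mem_singleton] at this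
      rcases this with ⟨(h | h) | h, hn⟩
      · exact hn (Or.inr (Or.inr (Or.inl (n₁ x h hcx))))
      · exact hn (Or.inr (Or.inr (Or.inr (n₂ x h hcx))))
      · rcases n₃ x h hcx with h' | h'
        · exact hn (Or.inl h')
        · exact hn (Or.inr (Or.inl h'))
    · simp only [mem_insert, mem_singleton] at hd
      rcases hd with rfl | rfl | rfl | rfl
      · exact m₄.2
      · exact m₃.2
      · exact m₁.2
      · exact m₂.2

theorem step {k : ℕ} (hk : 1 ≤ k) (hQ : Q1For k) (V E : Type) [Fintype V] [DecidableEq E]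
    (s t : E → V) (hV : Fintype.card V = k + 2) (T₁ T₂ T₃ : Finset E) (ht₁ : IsSpanningTree s t T₁)
    (ht₂ : IsSpanningTree s t T₂) (ht₃ : IsSpanningTree s t T₃) (d12 : Disjoint T₁ T₂)
    (d13 : Disjoint T₁ T₃) (d23 : Disjoint T₂ T₃) (S : Finset V) (u v : V) (hu : u ∈ S) (hv : v ∉ S)
    (hcut : (cut s t S (T₁ ∪ T₂ ∪ T₃)).card ≤ 4) :
    HasGoodOrdering s t (k + 1) (T₁ ∪ T₂ ∪ T₃) := by
  classical
  have p : ∀ T : Finset E, IsSpanningTree s t T → 0 < (cut s t S T).card := by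
    intro T hT
    obtain ⟨g0, hg0, hc0⟩ := exists_cross hT S u v hu hv
    exact Finset.card_pos.2 ⟨g0, mem_cut.2 ⟨hg0, hc0⟩⟩
  have hsum : (cut s t S (T₁ ∪ T₂ ∪ T₃)).card =
      (cut s t S T₁).card + (cut s t S T₂).card + (cut s t S T₃).card := by
    have : cut s t S (T₁ ∪ T₂ ∪ T₃) = cut s t S T₁ ∪ cut s t S T₂ ∪ cut s t S T₃ := by
      unfold cut
      rw [Finset.filter_union, Finset.filter_union]
    have s1 : ∀ T : Finset E, cut s t S T ⊆ T := fun T => Finset.filter_subset _ _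
    rw [this, Finset.card_union_of_disjoint (Finset.disjoint_union_left.2
      ⟨d13.mono (s1 _) (s1 _), d23.mono (s1 _) (s1 _)⟩),
      Finset.card_union_of_disjoint (d12.mono (s1 _) (s1 _))]
  have p1 := p T₁ ht₁
  have p2 := p T₂ ht₂
  have p3 := p T₃ ht₃
  rcases (by omega : ((cut s t S T₁).card = 1 ∧ (cut s t S T₂).card = 1 ∧ (cut s t S T₃).card ≤ 2) ∨
    ((cut s t S T₁).card = 1 ∧ (cut s t S T₃).card = 1 ∧ (cut s t S T₂).card ≤ 2) ∨
    ((cut s t S T₂).card = 1 ∧ (cut s t S T₃).card = 1 ∧ (cut s t S T₁).card ≤ 2)) with h | h | h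
  · exact step1 hk hQ V E s t hV T₁ T₂ T₃ ht₁ ht₂ ht₃ d12 d13 d23 S u v hu hv h.1 h.2.1 h.2.2
  · have := step1 hk hQ V E s t hV T₁ T₃ T₂ ht₁ ht₃ ht₂ d13 d12 d23.symm S u v hu hv h.1 h.2.1 h.2.2
    rw [show T₁ ∪ T₂ ∪ T₃ = T₁ ∪ T₃ ∪ T₂ by ext; simp only [mem_union]; tauto]
    exact this
  · have := step1 hk hQ V E s t hV T₂ T₃ T₁ ht₂ ht₃ ht₁ d23 d12.symm d13.symm S u v hu hv h.1 h.2.1 h.2.2
    rw [show T₁ ∪ T₂ ∪ T₃ = T₂ ∪ T₃ ∪ T₁ by ext; simp only [mem_union]; tauto]
    exact this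

theorem base : Q1For 1 := by
  intro V E _ _ s t hV T₁ T₂ T₃ h₁ h₂ h₃ d12 d13 d23
  have c1 : T₁.card = 1 := by have := h₁.1; omega
  have c2 : T₂.card = 1 := by have := h₂.1; omega
  have c3 : T₃.card = 1 := by have := h₃.1; omega
  obtain ⟨a, rfl⟩ := Finset.card_eq_one.1 c1
  obtain ⟨b, rfl⟩ := Finset.card_eq_one.1 c2
  obtain ⟨c, rfl⟩ := Finset.card_eq_one.1 c3
  set f : ℕ → E := fun j => if j % 3 = 0 then a else if j % 3 = 1 then b else c with hf
  have hU : (({a} : Finset E) ∪ {b} ∪ {c}).card = 3 := by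
    rw [Finset.card_union_of_disjoint (Finset.disjoint_union_left.2 ⟨d13, d23⟩),
      Finset.card_union_of_disjoint d12]
    simp
  refine ⟨f, ?_, ?_⟩
  · apply cyc_of_surj hU f
    · intro j; simp only [hf, Nat.add_mod_right]
    · intro x hx
      simp only [mem_union, mem_singleton] at hx
      rcases hx with (rfl | rfl) | rfl
      · exact ⟨0, by omega, by simp [hf]⟩
      · exact ⟨1, by omega, by simp [hf]⟩
      · exact ⟨2, by omega, by simp [hf]⟩
  · intro j
    have hw : win f 1 j = {f j} := by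
      unfold win; simp
    rw [hw]
    simp only [hf]
    split_ifs
    · exact h₁
    · exact h₂
    · exact h₃

theorem small_cut {V E : Type} [Fintype V] [DecidableEq V] (s t : E → V) (U : Finset E) (k : ℕ) (hk : k ≤ 3)
    (hV : Fintype.card V = k + 2) (hU : U.card = 3 * k + 3) : ∃ v : V, (cut s t {v} U).card ≤ 4 := by
  classical
  by_contra hcon
  push Not at hcon
  have h1 : ∑ _v : V, 5 ≤ ∑ v : V, (cut s t {v} U).card := Finset.sum_le_sum fun v _ => hcon v
  have h2 : ∑ v : V, (cut s t {v} U).card ≤ ∑ _e ∈ U, 2 := by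
    have : ∀ v : V, (cut s t {v} U).card = ∑ e ∈ U, if Crosses s t {v} e then 1 else 0 := by
      intro v
      unfold cut
      rw [Finset.card_filter]
    simp_rw [this]
    rw [Finset.sum_comm]
    apply Finset.sum_le_sum
    intro e _
    rw [← Finset.card_filter]
    have hsub : (Finset.univ.filter fun v : V => Crosses s t {v} e) ⊆ {s e, t e} := by
      intro v hv
      have := (Finset.mem_filter.1 hv).2
      unfold Crosses at this
      simp only [mem_singleton, mem_insert] at this ⊢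
      rcases this with ⟨h, _⟩ | ⟨_, h⟩
      · left; exact h.symm
      · right; exact h.symm
    exact (Finset.card_le_card hsub).trans Finset.card_le_two
  rw [Finset.sum_const, Finset.card_univ, hV] at h1
  rw [Finset.sum_const, hU] at h2
  simp only [smul_eq_mul] at h1 h2
  omega

theorem succ {k : ℕ} (hk : 1 ≤ k) (hk3 : k ≤ 3) (hQ : Q1For k) : Q1For (k + 1) := by
  classical
  intro V E _ _ s t hV T₁ T₂ T₃ h₁ h₂ h₃ d12 d13 d23
  have c1 : T₁.card = k + 1 := by have := h₁.1; omega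
  have c2 : T₂.card = k + 1 := by have := h₂.1; omega
  have c3 : T₃.card = k + 1 := by have := h₃.1; omega
  have hU : (T₁ ∪ T₂ ∪ T₃).card = 3 * k + 3 := by
    rw [Finset.card_union_of_disjoint (Finset.disjoint_union_left.2 ⟨d13, d23⟩),
      Finset.card_union_of_disjoint d12, c1, c2, c3]
    omega
  obtain ⟨v, hv⟩ := small_cut s t (T₁ ∪ T₂ ∪ T₃) k hk3 (by omega) hU
  obtain ⟨w, hw⟩ : ∃ w : V, w ≠ v := by
    have : 1 < Fintype.card V := by omega
    exact Fintype.exists_ne_of_one_lt_card this v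
  exact step hk hQ V E s t (by omega) T₁ T₂ T₃ h₁ h₂ h₃ d12 d13 d23 {v} v w (by simp) (by simpa using hw) hv

/-- Cuts with at most four edges, and the graphs with at most five vertices. -/
theorem result :
    (∀ k : ℕ, 1 ≤ k → Q1For k → ∀ (V E : Type) [Fintype V] [DecidableEq E] (s t : E → V),
      Fintype.card V = k + 2 → ∀ T₁ T₂ T₃ : Finset E, IsSpanningTree s t T₁ → IsSpanningTree s t T₂ →
      IsSpanningTree s t T₃ → Disjoint T₁ T₂ → Disjoint T₁ T₃ → Disjoint T₂ T₃ →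
      ∀ (S : Finset V) (u v : V), u ∈ S → v ∉ S → (cut s t S (T₁ ∪ T₂ ∪ T₃)).card ≤ 4 →
        HasGoodOrdering s t (k + 1) (T₁ ∪ T₂ ∪ T₃)) ∧
    ∀ k : ℕ, 1 ≤ k → k ≤ 4 → Q1For k := by
  refine ⟨?_, ?_⟩
  · intro k hk hQ V E _ _ s t hV T₁ T₂ T₃ h₁ h₂ h₃ d12 d13 d23 S u v hu hv hc
    exact step hk hQ V E s t hV T₁ T₂ T₃ h₁ h₂ h₃ d12 d13 d23 S u v hu hv hc
  · intro k h1 h4
    have q1 := base
    have q2 := succ (le_refl 1) (by omega) q1
    have q3 := succ (k := 2) (by omega) (by omega) q2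
    have q4 := succ (k := 3) (by omega) (by omega) q3
    interval_cases k
    · exact q1
    · exact q2
    · exact q3
    · exact q4

end Pool.Agent.Results.MP_974a61_co.SmallCuts
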